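import Pool.Graph.R_seed8.Y551.EL.Main
import Pool.Agent.KS6_13.EH.StarS

/-!
# No ETOL language is hardest; the ETOL languages are not a finitely generated AFL

The question asks for an ETOL language `L₀` of which all ETOL languages are inverse homomorphic
images; the answer is no (library: `NoHardest`, `SmallClasses`).  Here inverse homomorphisms are
replaced by all the operations of an AFL: union, concatenation, Kleene plus, nonerasing
homomorphisms, inverse homomorphisms, intersection with regular languages, and also inverse images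
under nondeterministic real-time transducers with any number of states.

* For every `k` there is a right-linear system with `4 k + 19` nonterminals over two letters
  whose language is not in the AFL generated by any finite family of languages of ETOL systems
  with at most `k` symbols altogether (counting one more symbol for each system), whatever the
  number of tables and the lengths of the rules.
* So no class between the right-linear languages over two letters and the ETOL languages is
  contained in the AFL generated by finitely many of its members: the ETOL languages, the EDTOL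
  languages, the ETOL languages of finite index, ... are not finitely generated (so not
  principal) AFLs.
* In particular none of them has a hardest language, which for the ETOL languages is the question.

The proof: (1) all languages in the AFL generated by the languages `L i` are inverse images under
real-time transducers of the iterated marked union of the `L i`, which is an ETOL language; (2) for
an ETOL system `G` there is an ETOL system `sys G` with at most twice as many symbols plus 13,
such that for each transducer `T` there is a homomorphism `h` with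
`T.pre G.lang = {w | w.flatMap h ∈ (sys G).lang}` up to the empty word (Greibach's encoding); (3) the
theorem of the library on the number of symbols, for homomorphisms.
-/

set_option autoImplicit false

namespace Pool.Agent.Results.MP_d9d02e_lc.NoFinitelyGeneratedAFL

open Pool.Agent.Helper450.ET Pool.Agent.Y551.EL Pool.Agent.KS6_13.EH

/-- The witness for `k` symbols. -/
theorem core1 (k : ℕ) (α₀ : Type) [Finite α₀] (G : ETOL α₀) (hG : Nat.card (α₀ ⊕ G.ν) ≤ k)
    (T : RT Bool α₀) : (BG (2 * k + 13)).lang ≠ T.pre G.lang := by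
  intro h
  have := T.finQ
  have he : Function.Injective (fun q : T.Q => ((Finite.equivFin T.Q q : ℕ))) :=
    fun a b hab => (Finite.equivFin T.Q).injective (Fin.ext hab)
  refine main (2 * k + 13) (A1 α₀) (sys G) ((sys_card G).trans (by omega))
    (hom T (fun q : T.Q => ((Finite.equivFin T.Q q : ℕ)))) ?_
  ext w
  by_cases hw : w = []
  · subst hw
    constructor
    · intro h'
      exact absurd h' (BG_nil _)
    · intro h'
      have h2 : ([] : List (A1 α₀)) ∈ (sys G).lang := h'
      rw [sys_lang] at h2
      exact absurd h2 (nil_not_mem_Enc _)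
  · rw [h, pre_iff T _ he _ w hw]
    show _ ↔ w.flatMap _ ∈ (sys G).lang
    rw [sys_lang]

/-- The witness for finite families with `k` symbols. -/
theorem core2 (k m : ℕ) (α : Fin m → Type) [∀ i, Finite (α i)] (G : ∀ i, ETOL (α i))
    (hG : ∑ i, (Nat.card (α i ⊕ (G i).ν) + 1) ≤ k) :
    ¬ AFL (fun i => (G i).lang) Bool (BG (4 * k + 17)).lang := by
  intro h
  obtain ⟨T, hT⟩ := AFL_StarL (fun i => (G i).lang) Bool _ h
  rw [← starS_lang G] at hT
  have h1 : Nat.card (Gm (Fin m) α ⊕ (starSys G).ν) ≤ 2 * k + 2 := by
    have h2 := starS_card G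
    rw [Finset.sum_add_distrib] at hG
    simp only [Finset.sum_const, Finset.card_univ, Fintype.card_fin, smul_eq_mul, mul_one] at hG
    omega
  have h3 := core1 (2 * k + 2) (Gm (Fin m) α) (starSys G) h1 T
  rw [show 2 * (2 * k + 2) + 13 = 4 * k + 17 by ring] at h3
  exact h3 hT.symm

theorem result :
    -- (1) the number of symbols
    (∀ k : ℕ, ∃ B : ETOL Bool, RightLinear B ∧ Nat.card B.ν = 4 * k + 19 ∧
      B.axm.countP Sum.isRight = 8 * k + 41 ∧ [] ∉ B.lang ∧
      ∀ (m : ℕ) (α : Fin m → Type) [∀ i, Finite (α i)] (G : ∀ i, ETOL (α i)),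
        ∑ i, (Nat.card (α i ⊕ (G i).ν) + 1) ≤ k → ¬ AFL (fun i => (G i).lang) Bool B.lang) ∧
    -- (2) classes of ETOL languages
    (∀ 𝒞 : ∀ α : Type, Set (Set (List α)),
      (∀ B : ETOL Bool, RightLinear B → B.lang ∈ 𝒞 Bool) →
      (∀ (α : Type) [Finite α], ∀ L ∈ 𝒞 α, IsETOL L) →
      ¬ ∃ (m : ℕ) (α : Fin m → Type) (_ : ∀ i, Finite (α i)) (L : ∀ i, Set (List (α i))),
        (∀ i, L i ∈ 𝒞 (α i)) ∧
        ∀ (β : Type) [Finite β], ∀ A ∈ 𝒞 β, ([] : List β) ∉ A → AFL L β A) ∧
    -- (3) the question
    ¬ ∃ (α₀ : Type) (_ : Finite α₀) (L₀ : Set (List α₀)), IsHardest L₀ := by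
  have h1 : ∀ k : ℕ, ∃ B : ETOL Bool, RightLinear B ∧ Nat.card B.ν = 4 * k + 19 ∧
      B.axm.countP Sum.isRight = 8 * k + 41 ∧ [] ∉ B.lang ∧
      ∀ (m : ℕ) (α : Fin m → Type) [∀ i, Finite (α i)] (G : ∀ i, ETOL (α i)),
        ∑ i, (Nat.card (α i ⊕ (G i).ν) + 1) ≤ k → ¬ AFL (fun i => (G i).lang) Bool B.lang :=
    fun k => ⟨BG (4 * k + 17), BG_rl _, by rw [BG_card], by rw [BG_index]; ring, BG_nil _,
      fun m α _ G hG => core2 k m α G hG⟩
  have h2 : ∀ (m : ℕ) (α : Fin m → Type) [∀ i, Finite (α i)] (L : ∀ i, Set (List (α i))),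
      (∀ i, IsETOL (L i)) → ∃ B : ETOL Bool, RightLinear B ∧ [] ∉ B.lang ∧
        ¬ AFL L Bool B.lang := by
    intro m α _ L hL
    choose G hG using hL
    obtain ⟨B, b1, -, -, b2, b3⟩ := h1 (∑ i, (Nat.card (α i ⊕ (G i).ν) + 1))
    refine ⟨B, b1, b2, ?_⟩
    have h := b3 m α G le_rfl
    have e : (fun i => (G i).lang) = L := funext hG
    rw [e] at h
    exact h
  refine ⟨h1, ?_, ?_⟩
  · rintro 𝒞 hin hout ⟨m, α, hα, L, hL, H⟩
    obtain ⟨B, b1, b2, b3⟩ := h2 m α L (fun i => hout (α i) (L i) (hL i))
    exact b3 (H Bool B.lang (hin B b1) b2)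
  · rintro ⟨α₀, hα, L₀, hL₀, H⟩
    obtain ⟨B, b1, b2, b3⟩ := h2 1 (fun _ => α₀) (fun _ => L₀) (fun _ => hL₀)
    obtain ⟨h, hh, -⟩ := H Bool B.lang ⟨B, rfl⟩
    refine b3 ?_
    rw [hh b2]
    exact AFL.invHom h (AFL.base (L := fun _ : Fin 1 => L₀) 0)

end Pool.Agent.Results.MP_d9d02e_lc.NoFinitelyGeneratedAFL
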